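import Pool.Agent.H482R3.EA.Stm

set_option autoImplicit false

/-! Project EA, task XX: the elements `x_i` of the free group (helper6). -/

namespace Pool.Agent.H6R2.EA

open Pool.Agent.H482R3.EA

theorem XX_eq (k : ℕ) (hk : 0 < k) (i q : ℤ) (r : Fin k) (h : i = (r : ℕ) + k * q) :
    xx k i = PP k ^ (-q) * FreeGroup.of r * PP k ^ q := by
  have hk' : (0 : ℤ) < k := by exact_mod_cast hk
  have hr : ((r : ℕ) : ℤ) < k := by exact_mod_cast r.2
  have h1 : i / (k : ℤ) = q := by
    rw [h, Int.add_mul_ediv_left _ _ hk'.ne', Int.ediv_eq_zero_of_lt (by omega) hr, zero_add]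
  have h2 : i % (k : ℤ) = (r : ℕ) := by
    rw [h, Int.add_mul_emod_self_left, Int.emod_eq_of_lt (by omega) hr]
  unfold xx
  rw [dif_pos hk, h1]
  congr 3
  apply Fin.ext
  show (i % (k : ℤ)).toNat = (r : ℕ)
  rw [h2]
  simp

theorem XX_shift (k : ℕ) (hk : 0 < k) (i : ℤ) : xx k (i + k) = (PP k)⁻¹ * xx k i * PP k := by
  have hk' : (0 : ℤ) < k := by exact_mod_cast hk
  have h1 := Int.emod_nonneg i hk'.ne'
  have h2 := Int.emod_lt_of_pos i hk'
  have h3 := Int.emod_add_mul_ediv i k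
  set r : Fin k := ⟨(i % (k : ℤ)).toNat, by omega⟩ with hr
  have h4 : ((r : ℕ) : ℤ) = i % (k : ℤ) := Int.toNat_of_nonneg h1
  rw [XX_eq k hk i (i / k) r (by rw [h4, h3]),
    XX_eq k hk (i + k) (i / k + 1) r (by rw [h4]; linarith)]
  rw [neg_add, zpow_add, zpow_add, zpow_one, zpow_neg_one, (Commute.zpow_left
    (Commute.inv_right (Commute.refl (PP k))) (-(i / (k : ℤ)))).eq]
  simp only [mul_assoc]

theorem t_XX : S_XX := by
  intro k hk
  have hof : ∀ r : Fin k, xx k ((r : ℕ) : ℤ) = FreeGroup.of r := by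
    intro r
    rw [XX_eq k hk _ 0 r (by ring)]
    simp
  refine ⟨XX_shift k hk, ?_, hof⟩
  obtain ⟨m, rfl⟩ : ∃ m, k = m + 1 := ⟨k - 1, by omega⟩
  have hstep : ∀ i : ℤ, ∃ Q : FreeGroup (Fin (m + 1)),
      (List.ofFn fun r : Fin (m + 1) => xx (m + 1) (i + (r : ℕ))).prod = xx (m + 1) i * Q ∧
      (List.ofFn fun r : Fin (m + 1) => xx (m + 1) (i + 1 + (r : ℕ))).prod
        = Q * xx (m + 1) (i + (m + 1 : ℕ)) := by
    intro i
    refine ⟨(List.ofFn fun r : Fin m => xx (m + 1) (i + 1 + (r : ℕ))).prod, ?_, ?_⟩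
    · rw [List.ofFn_succ, List.prod_cons]
      congr 1
      · simp
      · congr 2
        funext r
        congr 1
        simp only [Fin.val_succ]
        push_cast
        ring
    · rw [List.ofFn_succ', List.concat_eq_append, List.prod_append, List.prod_singleton]
      congr 1
      congr 1
      simp only [Fin.val_last]
      push_cast
      ring
  have hsh := XX_shift (m + 1) hk
  intro i
  induction i using Int.induction_on with
  | zero =>
    unfold PP
    congr 2
    funext r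
    rw [zero_add]
    exact hof r
  | succ i ih =>
    obtain ⟨Q, h1, h2⟩ := hstep i
    rw [h1] at ih
    rw [h2, hsh]
    have h3 : Q = (xx (m + 1) i)⁻¹ * PP (m + 1) := by rw [← ih]; group
    rw [h3]
    group
  | pred i ih =>
    obtain ⟨Q, h1, h2⟩ := hstep (-(i : ℤ) - 1)
    rw [sub_add_cancel] at h2
    rw [h2, hsh] at ih
    rw [h1]
    have h3 : Q = PP (m + 1) * ((PP (m + 1))⁻¹ * xx (m + 1) (-(i : ℤ) - 1) * PP (m + 1))⁻¹ := by
      rw [← mul_right_cancel_iff (a := (PP (m + 1))⁻¹ * xx (m + 1) (-(i : ℤ) - 1) * PP (m + 1)), ih]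
      group
    rw [h3]
    group

end Pool.Agent.H6R2.EA
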